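import Pool.Agent.P.MP_9155ad_al.RRed2
import Pool.Agent.P.MP_9155ad_al.RTwo

namespace Pool.Agent.Results.MP_9155ad_al.AllPrimes

open Pool.Agent.P.MP_9155ad_al.Rz

/-- For every prime `p` and every `n` with `p ^ (n - 1) ≥ 4` there are finite `p`-groups generated
by `max 2 (p - 1)` elements, of unbounded derived length, each with a splitting automorphism of
order exactly `p ^ n`. -/
theorem result (p n : ℕ) (hp : p.Prime) (hn : 4 * p ≤ p ^ n) (f : ℕ) :
    ∃ (G : Type) (_ : Group G), Finite G ∧ IsPGroup p G ∧ Group.IsNilpotent G ∧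
      (∃ S : Finset G, S.card ≤ max 2 (p - 1) ∧ Subgroup.closure (S : Set G) = ⊤) ∧
      (∃ φ : MulAut G, orderOf φ = p ^ n ∧
        ∀ x : G, ((List.range (p ^ n)).map (fun i => (φ ^ i) x)).prod = 1) ∧
      derivedSeries G f ≠ ⊥ := by
  have h2 := hp.two_le
  obtain ⟨m, rfl⟩ : ∃ m, n = m + 2 := by
    rcases n with _ | _ | m
    · simp at hn
      omega
    · simp at hn
      omega
    · exact ⟨m, rfl⟩
  have key : NS (p ^ (m + 1)) f := by
    by_cases h5 : 5 ≤ p
    · exact (NS_big hp h5 f).mono (dvd_pow_self p (by omega))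
    · have h4 : p ≠ 4 := by
        rintro rfl
        exact absurd hp (by norm_num)
      rcases m with _ | m
      · obtain rfl | rfl : p = 2 ∨ p = 3 := by omega
        all_goals norm_num at hn
      · obtain rfl | rfl : p = 2 ∨ p = 3 := by omega
        · exact (NS_four f).mono ⟨2 ^ m, by ring⟩
        · exact (NS_nine f).mono ⟨3 ^ m, by ring⟩
  obtain ⟨P, _, _, hP, hd⟩ := key
  exact reduction' hp P hP hd

end Pool.Agent.Results.MP_9155ad_al.AllPrimes
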